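import Pool.Agent.Lib.MP_f0c028_an.LP6

set_option autoImplicit false

/-! # Powers of the Beurling transform: exponentials of logarithmic potentials

`‖B^m‖_{L²(w) → L²(w)} ≤ C · m · [w]_{A₂}` with an absolute constant `C`, for every `m ≥ 1` and every
`A₂` weight `w = e^u` such that `u` is the logarithmic potential of a finite positive measure, of a
finite negative measure, or of a signed measure of total variation at most `2 - 1 / K`.

The statement is the frozen statement `S06655` of the problem with this extra hypothesis. -/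

open Real

namespace Pool.Agent.Results.MP_f0c028_an.LogPotentialWeights

open MeasureTheory Pool.Agent.Lib.MP_f0c028_an

theorem result :
    ∃ C : ℝ, ∀ m : ℕ, 1 ≤ m → ∀ (w : ℂ → ℝ) (K : ℝ),
      (∀ z, 0 < w z) →
      MeasureTheory.LocallyIntegrable w MeasureTheory.volume →
      MeasureTheory.LocallyIntegrable (fun z => (w z)⁻¹) MeasureTheory.volume →
      (∀ (c : ℂ) (r : ℝ), 0 < r →
        ((∫ z in Metric.ball c r, w z) / (MeasureTheory.volume (Metric.ball c r)).toReal) *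
        ((∫ z in Metric.ball c r, (w z)⁻¹) / (MeasureTheory.volume (Metric.ball c r)).toReal) ≤ K) →
      (∃ (ν₁ ν₂ : MeasureTheory.Measure ℂ) (c : ℝ),
        MeasureTheory.IsFiniteMeasure ν₁ ∧ MeasureTheory.IsFiniteMeasure ν₂ ∧
        MeasureTheory.Integrable (fun a => Real.log (1 + ‖a‖)) ν₁ ∧
        MeasureTheory.Integrable (fun a => Real.log (1 + ‖a‖)) ν₂ ∧
        (ν₁ = 0 ∨ ν₂ = 0 ∨ ν₁ Set.univ + ν₂ Set.univ ≤ ENNReal.ofReal (2 - 1 / K)) ∧
        ∀ᵐ z : ℂ, Real.log (w z) =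
          c + (∫ a, Real.log ‖z - a‖ ∂ν₁) - ∫ a, Real.log ‖z - a‖ ∂ν₂) →
      ∀ f : SchwartzMap ℂ ℂ,
        ∫⁻ z, ‖∫ ξ : ℂ, Complex.exp (2 * π * Complex.I * ((z.re * ξ.re + z.im * ξ.im : ℝ) : ℂ)) *
              ((starRingEnd ℂ ξ / ξ) ^ m *
                ∫ x : ℂ, Complex.exp (-(2 * π * Complex.I * ((x.re * ξ.re + x.im * ξ.im : ℝ) : ℂ))) * f x)‖ₑ ^ 2
            * ENNReal.ofReal (w z)
          ≤ ENNReal.ofReal ((C * m * K) ^ 2) * ∫⁻ z, ‖f z‖ₑ ^ 2 * ENNReal.ofReal (w z) := by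
  refine ⟨57600000, fun m hm w K hpos hw hwi hA ⟨ν₁, ν₂, c, hf1, hf2, h1, h2, hmass, hlog⟩ f => ?_⟩
  simp_rw [gg_eq]
  exact pot_main hm hpos hw hwi hA h1 h2 hmass hlog f

end Pool.Agent.Results.MP_f0c028_an.LogPotentialWeights
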