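import Pool.Agent.Lib.MP_f0c028_an.PW6

set_option autoImplicit false

/-! # Powers of the Beurling transform: superpositions of power weights

`‖B^m‖_{L²(w) → L²(w)} ≤ C · m · [w]_{A₂}` with an absolute constant `C`, for every `m ≥ 1` and every
`A₂` weight `w` such that `w` or `1 / w` is a superposition `∫ ‖z - a‖ ^ β ∂μ(a, β)` of power
weights with arbitrary centres `a` and exponents `β`, with respect to an arbitrary (s-finite)
measure `μ` on `ℂ × ℝ`.  Outside the atoms of `μ` the exponents satisfy `|β| ≤ 2 - 1 / K`; nothing is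
assumed about the exponents at the atoms, so all finite and countable sums
`∑ b i * ‖z - a i‖ ^ β i` are included without any condition.

The statement is the frozen statement `S06655` of the problem with this extra hypothesis. -/

open Real

namespace Pool.Agent.Results.MP_f0c028_an.PowerSuperpositions

open MeasureTheory Pool.Agent.Lib.MP_f0c028_an

theorem result :
    ∃ C : ℝ, ∀ m : ℕ, 1 ≤ m → ∀ (w : ℂ → ℝ) (K : ℝ),
      (∀ z, 0 < w z) →
      MeasureTheory.LocallyIntegrable w MeasureTheory.volume →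
      MeasureTheory.LocallyIntegrable (fun z => (w z)⁻¹) MeasureTheory.volume →
      (∀ (c : ℂ) (r : ℝ), 0 < r →
        ((∫ z in Metric.ball c r, w z) / (MeasureTheory.volume (Metric.ball c r)).toReal) *
        ((∫ z in Metric.ball c r, (w z)⁻¹) / (MeasureTheory.volume (Metric.ball c r)).toReal) ≤ K) →
      (∃ μ : MeasureTheory.Measure (ℂ × ℝ), MeasureTheory.SFinite μ ∧
        (∀ᵐ p ∂μ, |p.2| ≤ 2 - 1 / K ∨ 0 < μ {p}) ∧
        ((∀ᵐ z : ℂ, ENNReal.ofReal (w z) = ∫⁻ p, ENNReal.ofReal (‖z - p.1‖ ^ p.2) ∂μ) ∨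
          (∀ᵐ z : ℂ, ENNReal.ofReal (w z)⁻¹ = ∫⁻ p, ENNReal.ofReal (‖z - p.1‖ ^ p.2) ∂μ))) →
      ∀ f : SchwartzMap ℂ ℂ,
        ∫⁻ z, ‖∫ ξ : ℂ, Complex.exp (2 * π * Complex.I * ((z.re * ξ.re + z.im * ξ.im : ℝ) : ℂ)) *
              ((starRingEnd ℂ ξ / ξ) ^ m *
                ∫ x : ℂ, Complex.exp (-(2 * π * Complex.I * ((x.re * ξ.re + x.im * ξ.im : ℝ) : ℂ))) * f x)‖ₑ ^ 2
            * ENNReal.ofReal (w z)
          ≤ ENNReal.ofReal ((C * m * K) ^ 2) * ∫⁻ z, ‖f z‖ₑ ^ 2 * ENNReal.ofReal (w z) := by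
  refine ⟨57600000, fun m hm w K hpos hw hwi hA ⟨μ, hμf, hμ, hsum⟩ f => ?_⟩
  simp_rw [gg_eq]
  rcases hsum with h | h
  · exact super_main hm hpos hw hwi hA hμf hμ h f
  · exact super_inv hm hpos hw hwi hA hμf hμ h f

end Pool.Agent.Results.MP_f0c028_an.PowerSuperpositions
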