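import Pool.Agent.Lib.MP_f0c028_an.RWRep

set_option autoImplicit false

/-! # Powers of the Beurling transform on `L²(w)`, `w` radial

`‖B^m‖_{L²(w) → L²(w)} ≤ C · m · [w]_{A₂}` with an absolute constant `C`, for every `m ≥ 1` and every
`A₂` weight `w` on the plane which is radial about some point (`w z` depends only on `‖z - z₀‖`).

The statement is the frozen statement `S06655` of the problem with one extra hypothesis: the weight
is radial about some centre. -/

open Real

namespace Pool.Agent.Results.MP_f0c028_an.RadialWeights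

open MeasureTheory Pool.Agent.Lib.MP_f0c028_an

theorem result :
    ∃ C : ℝ, ∀ m : ℕ, 1 ≤ m → ∀ (w : ℂ → ℝ) (K : ℝ),
      (∀ z, 0 < w z) →
      MeasureTheory.LocallyIntegrable w MeasureTheory.volume →
      MeasureTheory.LocallyIntegrable (fun z => (w z)⁻¹) MeasureTheory.volume →
      (∀ (c : ℂ) (r : ℝ), 0 < r →
        ((∫ z in Metric.ball c r, w z) / (MeasureTheory.volume (Metric.ball c r)).toReal) *
        ((∫ z in Metric.ball c r, (w z)⁻¹) / (MeasureTheory.volume (Metric.ball c r)).toReal) ≤ K) →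
      (∃ z₀ : ℂ, ∀ z z' : ℂ, ‖z - z₀‖ = ‖z' - z₀‖ → w z = w z') →
      ∀ f : SchwartzMap ℂ ℂ,
        ∫⁻ z, ‖∫ ξ : ℂ, Complex.exp (2 * π * Complex.I * ((z.re * ξ.re + z.im * ξ.im : ℝ) : ℂ)) *
              ((starRingEnd ℂ ξ / ξ) ^ m *
                ∫ x : ℂ, Complex.exp (-(2 * π * Complex.I * ((x.re * ξ.re + x.im * ξ.im : ℝ) : ℂ))) * f x)‖ₑ ^ 2
            * ENNReal.ofReal (w z)
          ≤ ENNReal.ofReal ((C * m * K) ^ 2) * ∫⁻ z, ‖f z‖ₑ ^ 2 * ENNReal.ofReal (w z) := by
  refine ⟨200000, fun m hm w K hpos hw hwi hA ⟨z₀, hrad⟩ f => ?_⟩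
  obtain ⟨V, Vi, hV, hVi, hmul, hae⟩ :=
    radial_rep z₀ w hw.aestronglyMeasurable.aemeasurable hpos hrad
  have hvol : ∀ (c : ℂ) (r : ℝ), 0 < r → (volume (Metric.ball c r)).toReal = π * r ^ 2 := by
    intro c r hr
    rw [Complex.volume_ball, ENNReal.toReal_mul, ENNReal.toReal_pow, ENNReal.toReal_ofReal hr.le]
    simp [mul_comm]
  have hball : ∀ (u : ℂ → ℝ), (∀ z, 0 ≤ u z) → LocallyIntegrable u volume → ∀ (c : ℂ) (r : ℝ),
      ∫⁻ z in Metric.ball c r, ENNReal.ofReal (u z) = ENNReal.ofReal (∫ z in Metric.ball c r, u z) := by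
    intro u hu hui c r
    rw [ofReal_integral_eq_lintegral_ofReal]
    · exact (hui.integrableOn_isCompact (isCompact_closedBall c r)).mono_set Metric.ball_subset_closedBall
    · filter_upwards with z
      exact hu z
  have hlog : LogA2 (fun x => V (Real.exp x)) (fun x => Vi (Real.exp x)) K := by
    apply logA2_of_planar z₀ V Vi hV hVi hmul K
    intro c r hr
    have h1 : ∫⁻ z in Metric.ball c r, V ‖z - z₀‖ = ENNReal.ofReal (∫ z in Metric.ball c r, w z) := by
      rw [← hball w (fun z => (hpos z).le) hw c r]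
      apply lintegral_congr_ae
      filter_upwards [ae_restrict_of_ae hae] with z hz
      exact hz.1.symm
    have h2 : ∫⁻ z in Metric.ball c r, Vi ‖z - z₀‖ =
        ENNReal.ofReal (∫ z in Metric.ball c r, (w z)⁻¹) := by
      rw [← hball (fun z => (w z)⁻¹) (fun z => (inv_pos.mpr (hpos z)).le) hwi c r]
      apply lintegral_congr_ae
      filter_upwards [ae_restrict_of_ae hae] with z hz
      exact hz.2.symm
    have h3 : 0 ≤ ∫ z in Metric.ball c r, w z := by
      apply integral_nonneg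
      intro z
      exact (hpos z).le
    rw [h1, h2, ← ENNReal.ofReal_mul h3]
    apply ENNReal.ofReal_le_ofReal
    have h4 := hA c r hr
    rw [hvol c r hr] at h4
    have h5 : 0 < π * r ^ 2 := by positivity
    rw [div_mul_div_comm, div_le_iff₀ (by positivity)] at h4
    calc _ ≤ K * (π * r ^ 2 * (π * r ^ 2)) := h4
      _ = K * π ^ 2 * r ^ 4 := by ring
  have hcore := radial_core z₀ V Vi hV K hlog m hm f
  have e1 : ∀ g : ℂ → ℂ, ∫⁻ z, ‖g z‖ₑ ^ 2 * ENNReal.ofReal (w z) = ∫⁻ z, ‖g z‖ₑ ^ 2 * V ‖z - z₀‖ := by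
    intro g
    apply lintegral_congr_ae
    filter_upwards [hae] with z hz
    rw [hz.1]
  have e2 : ∀ z : ℂ, ∫ ξ : ℂ, Complex.exp (2 * π * Complex.I * ((z.re * ξ.re + z.im * ξ.im : ℝ) : ℂ)) *
              ((starRingEnd ℂ ξ / ξ) ^ m *
                ∫ x : ℂ, Complex.exp (-(2 * π * Complex.I * ((x.re * ξ.re + x.im * ξ.im : ℝ) : ℂ))) * f x)
      = gg f m z := fun z => (UU_eq (hh f m) z).symm
  simp_rw [e2]
  rw [e1, e1]
  exact hcore

end Pool.Agent.Results.MP_f0c028_an.RadialWeights
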