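import Pool.Agent.Lib.MP_f0c028_an.GW14
import Pool.Agent.Lib.MP_f0c028_an.SQ.F3

set_option autoImplicit false

/-! # Powers of the Beurling transform: all weights, the logarithm halved

`‖B^m‖_{L²(w) → L²(w)} ≤ C · m · [w]_{A₂} · min([w]_{A₂}^{1/2}, (1 + log m)^{1/2})` with an absolute
constant `C`, for every `m ≥ 1` and every `A₂` weight `w`.

The statement is the frozen statement `S06655` of the problem with `C * m * K` replaced by
`C * m * K * min √K √(1 + log m)`. -/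

open Real

namespace Pool.Agent.Results.MP_f0c028_an.SqrtLog

open MeasureTheory Pool.Agent.Lib.MP_f0c028_an

theorem result :
    ∃ C : ℝ, ∀ m : ℕ, 1 ≤ m → ∀ (w : ℂ → ℝ) (K : ℝ),
      (∀ z, 0 < w z) →
      MeasureTheory.LocallyIntegrable w MeasureTheory.volume →
      MeasureTheory.LocallyIntegrable (fun z => (w z)⁻¹) MeasureTheory.volume →
      (∀ (c : ℂ) (r : ℝ), 0 < r →
        ((∫ z in Metric.ball c r, w z) / (MeasureTheory.volume (Metric.ball c r)).toReal) *
        ((∫ z in Metric.ball c r, (w z)⁻¹) / (MeasureTheory.volume (Metric.ball c r)).toReal) ≤ K) →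
      ∀ f : SchwartzMap ℂ ℂ,
        ∫⁻ z, ‖∫ ξ : ℂ, Complex.exp (2 * π * Complex.I * ((z.re * ξ.re + z.im * ξ.im : ℝ) : ℂ)) *
              ((starRingEnd ℂ ξ / ξ) ^ m *
                ∫ x : ℂ, Complex.exp (-(2 * π * Complex.I * ((x.re * ξ.re + x.im * ξ.im : ℝ) : ℂ))) * f x)‖ₑ ^ 2
            * ENNReal.ofReal (w z)
          ≤ ENNReal.ofReal ((C * m * K * min (√K) (√(1 + Real.log m))) ^ 2) *
            ∫⁻ z, ‖f z‖ₑ ^ 2 * ENNReal.ofReal (w z) := by
  refine ⟨16 * 10 ^ 11, fun m hm w K hpos hw hwi hA f => ?_⟩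
  simp_rw [gg_eq]
  rcases le_total (√K) (√(1 + Real.log m)) with h | h
  · rw [min_eq_left h]
    refine (GW.all_main hm hpos hw hwi hA f).trans ?_
    refine mul_le_mul_left (ENNReal.ofReal_le_ofReal ?_) _
    have e : ((310272000 : ℝ) * m * (K * √K)) ^ 2 = 310272000 ^ 2 * (m * K * √K) ^ 2 := by ring
    have e' : ((16 * 10 ^ 11 : ℝ) * m * K * √K) ^ 2 = (16 * 10 ^ 11) ^ 2 * (m * K * √K) ^ 2 := by
      ring
    rw [e, e']
    exact mul_le_mul_of_nonneg_right (by norm_num) (sq_nonneg _)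
  · rw [min_eq_right h]
    have e : (16 * 10 ^ 11 : ℝ) * m * K * √(1 + Real.log m) =
        16 * 10 ^ 11 * m * √(1 + Real.log m) * K := by ring
    rw [e]
    exact SQ.all_log hm hpos hw hwi hA f

end Pool.Agent.Results.MP_f0c028_an.SqrtLog
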